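import Pool.Agent.N855.PQ.Split
import Pool.Agent.N195.PJ.E2
import Pool.Agent.N434.PJ.B1
import Pool.Agent.N769.PJ.Eq
import Pool.Agent.N787.PJ.Ext

/-!
# The local image at the primes dividing `D`

Project PQ (helper783), part LOC2 (helper855); port of N704/PJ/Loc2.lean (helper704), with the
abstract parts by helper195, helper434, helper769, helper787.
-/

set_option autoImplicit false
set_option linter.all false

open Polynomial IsDedekindDomain WithZero Matrix NumberField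
open Pool.Agent.N874.PP (Ev Sq1 U0)
open Pool.Agent.N783.PQ
open scoped Classical NNReal

namespace Pool.Agent.N855.PQ

open Pool.Agent.N704.PP (vx sq1_of u0_of_sq1 u0_of_sq1')
open Pool.Agent.N704.PJ (em em_lt em_le em_eq eval_lt WV wv_le wv_lt wv_eq eq_prod sq_list)
open Pool.Agent.N352.PJ (S_EXT S_E2 S_EQ ac prd CV)

theorem loc2_aux (h1 : S_EXQ) (h2 : S_CSQ) (h6 : S_CPL) (h3 : S_E2) (h4 : S_EQ) (h5 : S_EXT) :
    S_LOC2 := by
  intro g W L _ _ f θ S r hg hG hsq hS q hQ _ hC D' h' hD hne hl 𝔮 hO hθ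
  obtain ⟨hsqc, hcard⟩ := h2 g W L f θ S r hg hG hsq hS q hQ hC 𝔮 hO hθ
  obtain ⟨hqp, -, -, hq8, -⟩ := hS q hQ
  have hfin : Finite (𝓞 L ⧸ 𝔮.asIdeal) :=
    Nat.finite_of_card_ne_zero (by rw [hcard]; exact pow_ne_zero _ hqp.ne_zero)
  have hvQ : 𝔮.valuation L (q : L) = exp (-1 : ℤ) := by
    obtain ⟨𝔓₁, 𝔮', -, -, hθ1, -, -, hvq', huq⟩ := h1 g W L f θ S r hg hG hsq hS q hQ hC
    rcases huq 𝔮 hO with h7 | h7
    · rw [h7] at hθ
      rw [hθ] at hθ1
      exact absurd hθ1 (lt_irrefl _)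
    · rw [h7]; exact hvq'
  have hDz : ¬ (q : ℤ) ∣ (D' : ℤ) := by exact_mod_cast hD
  have hvD' : 𝔮.valuation L ((D' : ℤ) : L) = 1 := valO_eq_one hqp hO hDz
  have hv2 : 𝔮.valuation L 2 = 1 := by
    have e : ¬ (q : ℤ) ∣ 2 := by
      intro h
      have := Int.le_of_dvd (by norm_num) h
      have := hqp.one_lt
      omega
    have := valO_eq_one (L := L) hqp hO e
    rwa [show (((2 : ℤ) : ℤ) : L) = 2 by norm_num] at this
  obtain ⟨z, hz1, hz2, hz3, hz4, hz5⟩ := split hg hG hS hQ hC hO hθ hfin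
  obtain ⟨j, hj1, hj2, hj3⟩ := h6 L q 𝔮 hO
  obtain ⟨w, c, hc, hw⟩ := h5 (𝓞 L) L 𝔮 hv2
  change WV w c at hw
  set Θ : L := ((q * D' : ℕ) : L) * θ with hΘ
  set N : ℤ := ((q * D' : ℕ) : ℤ) with hN
  have hΘ0 : aeval Θ (f.scaleRoots N) = 0 := by
    have := scaleRoots_aeval_eq_zero (r := N) hG.root
    rw [hΘ]
    simpa [hN] using this
  obtain ⟨l, s, hl1, hl2⟩ := locIm_eval j hj1 hΘ0 hl
  set α' := aeval Θ h' with hα'
  set α := algebraMap L (𝔮.adicCompletion L) α' with hα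
  have hα0 : α ≠ 0 := by rw [hα, Ne, map_eq_zero]; exact hne
  set D := emb 𝔮 N with hDd
  set t := algebraMap L (𝔮.adicCompletion L) θ with ht
  have vt : Valued.v (Γ₀ := WithZero (Multiplicative ℤ)) t = 1 := by rw [ht, vx, hθ]
  have ht0 : t ≠ 0 := by
    intro h
    rw [h, map_zero] at vt
    exact zero_ne_one vt
  have vD : Valued.v (Γ₀ := WithZero (Multiplicative ℤ)) D = exp (-1 : ℤ) := by
    rw [hDd, vemb, hN]
    have e : (((q * D' : ℕ) : ℤ) : L) = (q : L) * ((D' : ℤ) : L) := by push_cast; ring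
    rw [e, map_mul, hvQ, hvD', mul_one]
  have hD0 : D ≠ 0 := by
    intro h
    rw [h, map_zero] at vD
    exact exp_ne_zero vD.symm
  have hΘE : algebraMap L (𝔮.adicCompletion L) Θ = D * t := by
    rw [hΘ, map_mul, hDd, emb_apply, hN]
    push_cast
    rfl
  rw [hΘE] at hl2
  have hzinj : Function.Injective z := by
    intro i i' hii
    by_contra hne'
    have := hz4 i i' hne'
    rw [hii, sub_self, map_zero] at this
    exact zero_ne_one this
  have hfm : (f.map (emb 𝔮)).Monic := hG.mon.map _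
  have hfd : (f.map (emb 𝔮)).natDegree = 2 * g + 1 := by
    rw [hG.mon.natDegree_map, hG.deg]
  have hfp := eq_prod hfm hfd hzinj hz1
  have hFm : ((f.scaleRoots N).map (emb 𝔮)).Monic :=
    ((monic_scaleRoots_iff _).2 hG.mon).map _
  have hFd : ((f.scaleRoots N).map (emb 𝔮)).natDegree = 2 * g + 1 := by
    rw [Monic.natDegree_map ((monic_scaleRoots_iff _).2 hG.mon), natDegree_scaleRoots, hG.deg]
  have hFp : (f.scaleRoots N).map (emb 𝔮) = prd D z := by
    refine eq_prod hFm hFd (r := fun i => D * z i) ?_ ?_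
    · intro i i' hii
      exact hzinj (mul_left_cancel₀ hD0 hii)
    · intro i
      rw [eval_map]
      refine scaleRoots_eval₂_eq_zero _ ?_
      rw [← eval_map]
      exact hz1 i
  obtain ⟨i₁, hi₁⟩ : ∃ i, t = z i := by
    have h7 : (f.map (emb 𝔮)).eval t = 0 := by
      rw [ht, eval_emb, hG.root, map_zero]
    rw [hfp, eval_prod, Finset.prod_eq_zero_iff] at h7
    obtain ⟨i, -, hi⟩ := h7
    rw [eval_sub, eval_X, eval_C, sub_eq_zero] at hi
    exact ⟨i, hi⟩
  have hi₁0 : i₁ ≠ 0 := by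
    intro h
    rw [← h, ← hi₁, vt] at hz3
    exact lt_irrefl _ hz3
  have hjD : j (N : ℚ_[q]) = D := by
    rw [hDd, map_intCast]
    rfl
  have hQD0 : (N : ℚ_[q]) ≠ 0 := by
    intro h
    rw [h, map_zero] at hjD
    exact hD0 hjD.symm
  have hwD : w (ac D) = c := by
    rw [ac, hw D 1 vD, zpow_one]
  -- the factors
  have key : ∀ p ∈ l, IsSquare ((-1) ^ p.1.natDegree * (p.1.map j).eval (D * t)) ∨
      IsSquare ((-1) ^ p.1.natDegree * (p.1.map j).eval (D * t) * (-(D * t))) := by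
    intro p hp
    obtain ⟨h7, h8, h9⟩ := hl1 p hp
    rw [hFp] at h8 h9
    have h10 := h3 (𝔮.adicCompletion L) w c hc g D z (p.1.map j) (p.2.map j) hg hwD
      (fun i => (wv_le hc hw _).2 (hz2 i)) ((wv_lt hc hw _).2 hz3)
      (fun i i' hii => (wv_eq hc hw _).2 (hz4 i i' hii)) (h7.map j) h8 h9 ?_ i₁ hi₁0
    · rw [natDegree_map, ← hi₁] at h10
      exact h10
    · intro i i' hi hi'
      rw [← hjD]
      refine h4 _ _ j w _ (z i) (z i') p.1 hQD0 h7.ne_zero ((wv_le hc hw _).2 (hz2 i))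
        ((wv_le hc hw _).2 (hz2 i')) ?_
      intro q' hq'
      obtain ⟨p₀, hp₀⟩ := approx j hj3 q' fun n => (wv_le hc hw _).1 (hq' n)
      rw [wv_lt hc hw, wv_lt hc hw, hp₀ _ (hz2 i), hp₀ _ (hz2 i'), hz5 i hi, hz5 i' hi']
  have hDt0 : -(D * t) ≠ 0 := neg_ne_zero.2 (mul_ne_zero hD0 ht0)
  have hprod := sq_list hDt0 (fun p : ℚ_[q][X] × ℚ_[q][X] =>
    (-1) ^ p.1.natDegree * (p.1.map j).eval (D * t)) l key
  have hprod0 : (l.map fun p => (-1) ^ p.1.natDegree * (p.1.map j).eval (D * t)).prod ≠ 0 := by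
    intro h7
    rw [List.prod_eq_zero_iff, List.mem_map] at h7
    obtain ⟨p, hp, hp0⟩ := h7
    have h8 : (p.1.map j).eval (D * t) = 0 := by
      rcases mul_eq_zero.1 hp0 with h9 | h9
      · exact absurd h9 (pow_ne_zero _ (neg_ne_zero.2 one_ne_zero))
      · exact h9
    obtain ⟨-, ⟨a, b, hab⟩, -⟩ := hl1 p hp
    have h9 := congrArg (eval (D * t)) hab
    have h10 : ((f.scaleRoots N).map (emb 𝔮)).eval (D * t) = 0 := by
      rw [← hΘE, eval_emb, hΘ0, map_zero]
    rw [eval_add, eval_mul, eval_mul, h8, h10, mul_zero, mul_zero, add_zero, eval_one] at h9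
    exact zero_ne_one h9
  set pr := (l.map fun p => (-1) ^ p.1.natDegree * (p.1.map j).eval (D * t)).prod with hpr
  rcases hprod with ⟨r', hr⟩ | ⟨r', hr⟩
  · have hr' : pr = r' * r' := hr
    have hr0 : r' ≠ 0 := by
      rintro rfl
      rw [mul_zero] at hr'
      exact hprod0 hr'
    refine u0_of_sq1 (sq1_of 𝔮 α' (s / r') ?_)
    have e : algebraMap L (𝔮.adicCompletion L) α' - (s / r') ^ 2 = 0 := by
      rw [← hα, div_pow, ← hl2, hr']
      field_simp
      ring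
    rw [e, map_zero]
    exact zero_lt_iff.2 ((Valuation.ne_zero_iff _).2 hα0)
  · have hr' : pr * (-(D * t)) = r' * r' := hr
    have hr0 : r' ≠ 0 := by
      rintro rfl
      rw [mul_zero] at hr'
      exact mul_ne_zero hprod0 hDt0 hr'
    refine u0_of_sq1' hne hvQ hθ ?_
    -- `α (q θ) (-D')` is a square
    have hnD : ¬ (q : ℤ) ∣ -(D' : ℤ) := by rwa [dvd_neg]
    obtain ⟨σ, hσ⟩ := hsqc (-(D' : ℤ)) hnD
    have v2 : 𝔮.valuation L ((-(D' : ℤ) : ℤ) : L) = 1 := valO_eq_one hqp hO hnD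
    have vσ : 𝔮.valuation L (σ ^ 2) = 1 := by
      have := Valuation.map_sub_eq_of_lt_left (𝔮.valuation L) (x := ((-(D' : ℤ) : ℤ) : L))
        (y := ((-(D' : ℤ) : ℤ) : L) - σ ^ 2) hσ
      rwa [sub_sub_cancel, v2] at this
    rw [v2] at hσ
    have hσ0 : σ ≠ 0 := by
      rintro rfl
      rw [zero_pow two_ne_zero, map_zero] at vσ
      exact zero_ne_one vσ
    set σ' := algebraMap L (𝔮.adicCompletion L) σ with hσ'
    have hσ'0 : σ' ≠ 0 := by rw [hσ', Ne, map_eq_zero]; exact hσ0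
    set β := α' * ((q : L) * θ) with hβ
    have hβ0 : algebraMap L (𝔮.adicCompletion L) β ≠ 0 := by
      rw [Ne, map_eq_zero, hβ]
      refine mul_ne_zero hne (mul_ne_zero ?_ ?_)
      · intro h
        rw [h, map_zero] at hvQ
        exact exp_ne_zero hvQ.symm
      · intro h
        rw [h, map_zero] at hθ
        exact zero_ne_one hθ
    have e1 : algebraMap L (𝔮.adicCompletion L) (β * ((-(D' : ℤ) : ℤ) : L)) =
        α * (-(D * t)) := by
      rw [← hΘE, hα, ← map_neg, ← map_mul, hβ, hΘ]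
      congr 1
      push_cast
      ring
    have e2 : algebraMap L (𝔮.adicCompletion L) (β * ((-(D' : ℤ) : ℤ) : L)) =
        (s * (-(D * t)) / r') ^ 2 := by
      rw [e1, div_pow, eq_div_iff (pow_ne_zero 2 hr0), pow_two r', ← hr', mul_pow, ← hl2]
      ring
    refine sq1_of 𝔮 β ((s * (-(D * t)) / r') / σ') ?_
    have e3 : algebraMap L (𝔮.adicCompletion L) β - ((s * (-(D * t)) / r') / σ') ^ 2 =
        -(algebraMap L (𝔮.adicCompletion L) β *
          algebraMap L (𝔮.adicCompletion L) (((-(D' : ℤ) : ℤ) : L) - σ ^ 2) / σ' ^ 2) := by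
      have e2' : algebraMap L (𝔮.adicCompletion L) β *
          algebraMap L (𝔮.adicCompletion L) ((-(D' : ℤ) : ℤ) : L) =
          (s * (-(D * t)) / r') ^ 2 := by rw [← map_mul]; exact e2
      rw [div_pow (s * (-(D * t)) / r'), ← e2', map_sub, map_pow, ← hσ']
      field_simp
      ring
    rw [e3, Valuation.map_neg, map_div₀, map_mul, map_pow, hσ', ← map_pow, ← map_pow, vx 𝔮 (σ ^ 2),
      vσ, div_one, vx 𝔮 (_ - _)]
    calc _ < Valued.v (algebraMap L (𝔮.adicCompletion L) β) * 1 :=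
          mul_lt_mul_of_pos_left hσ (zero_lt_iff.2 ((Valuation.ne_zero_iff _).2 hβ0))
      _ = _ := mul_one _

theorem loc2 (h1 : S_INT) (h2 : S_EXQ) (h3 : S_CSQ) (h4 : S_CPL) : S_LOC2 :=
  loc2_aux h2 h3 h4 (Pool.Agent.N195.PJ.E2.e2 Pool.Agent.N434.PJ.b1) Pool.Agent.N769.PJ.eq
    Pool.Agent.N787.PJ.ext

end Pool.Agent.N855.PQ
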