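import Pool.Agent.N783.PQ.Loc
import Pool.Agent.N704.PJ.Loc2

/-!
# Local analysis over `ℚ_[q]`: basic facts

Project PQ (helper783), part LOC2 (helper855); port of N704/PJ (helper704).
-/

set_option autoImplicit false
set_option linter.all false

open Polynomial IsDedekindDomain WithZero Matrix NumberField
open Pool.Agent.N874.PP (Ev Sq1 U0)
open Pool.Agent.N783.PQ
open scoped Classical NNReal

namespace Pool.Agent.N855.PQ

open Pool.Agent.N704.PP (vx)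
open Pool.Agent.N704.PJ (em em_lt em_le em_eq eval_lt)

section ov

variable {L : Type} [Field L] [NumberField L]

theorem mem_iff {q : ℕ} (hq : q.Prime) {𝔓 : HeightOneSpectrum (𝓞 L)} (h : Ov q 𝔓) (c : ℤ) :
    (c : 𝓞 L) ∈ 𝔓.asIdeal ↔ (q : ℤ) ∣ c := by
  constructor
  · intro hc
    by_contra hn
    have hp : Prime (q : ℤ) := Nat.prime_iff_prime_int.1 hq
    obtain ⟨a, b, hab⟩ := (hp.irreducible.coprime_iff_not_dvd.2 hn : IsCoprime (q : ℤ) c)
    have h1 : (1 : 𝓞 L) ∈ 𝔓.asIdeal := by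
      have e : (1 : 𝓞 L) = (a : 𝓞 L) * (q : 𝓞 L) + (b : 𝓞 L) * (c : 𝓞 L) := by
        have := congrArg (Int.cast : ℤ → 𝓞 L) hab
        push_cast at this
        exact this.symm
      rw [e]
      exact 𝔓.asIdeal.add_mem (𝔓.asIdeal.mul_mem_left _ h) (𝔓.asIdeal.mul_mem_left _ hc)
    exact 𝔓.isPrime.ne_top ((Ideal.eq_top_iff_one _).2 h1)
  · rintro ⟨d, rfl⟩
    push_cast
    exact 𝔓.asIdeal.mul_mem_right _ h

theorem cast_O (c : ℤ) : algebraMap (𝓞 L) L (c : 𝓞 L) = (c : L) := by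
  simp

theorem valO_lt_one {q : ℕ} (hq : q.Prime) {𝔓 : HeightOneSpectrum (𝓞 L)} (h : Ov q 𝔓) (c : ℤ) :
    𝔓.valuation L (c : L) < 1 ↔ (q : ℤ) ∣ c := by
  rw [← cast_O, HeightOneSpectrum.valuation_lt_one_iff_mem, mem_iff hq h]

theorem valO_le_one (𝔓 : HeightOneSpectrum (𝓞 L)) (c : ℤ) : 𝔓.valuation L (c : L) ≤ 1 := by
  rw [← cast_O]
  exact 𝔓.valuation_le_one _

theorem valO_eq_one {q : ℕ} (hq : q.Prime) {𝔓 : HeightOneSpectrum (𝓞 L)} (h : Ov q 𝔓) {c : ℤ}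
    (hc : ¬ (q : ℤ) ∣ c) : 𝔓.valuation L (c : L) = 1 := by
  refine le_antisymm (valO_le_one 𝔓 c) ?_
  rw [← not_lt, valO_lt_one hq h]
  exact hc

/-- The map from the integers to the completion. -/
noncomputable abbrev emb (𝔓 : HeightOneSpectrum (𝓞 L)) : ℤ →+* 𝔓.adicCompletion L := Int.castRingHom _

theorem emb_apply (𝔓 : HeightOneSpectrum (𝓞 L)) (a : ℤ) :
    emb 𝔓 a = algebraMap L (𝔓.adicCompletion L) (a : L) := by
  rw [map_intCast]
  rfl

theorem vemb (𝔓 : HeightOneSpectrum (𝓞 L)) (a : ℤ) :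
    Valued.v (Γ₀ := WithZero (Multiplicative ℤ)) (emb 𝔓 a) = 𝔓.valuation L (a : L) := by
  rw [emb_apply]
  exact vx 𝔓 _

theorem eval_emb (𝔓 : HeightOneSpectrum (𝓞 L)) (p : ℤ[X]) (x : L) :
    (p.map (emb 𝔓)).eval (algebraMap L (𝔓.adicCompletion L) x) =
      algebraMap L (𝔓.adicCompletion L) (aeval x p) := by
  have e : emb 𝔓 = (algebraMap L (𝔓.adicCompletion L)).comp (algebraMap ℤ L) := RingHom.ext_int _ _
  rw [eval_map, e, ← hom_eval₂]
  rfl

theorem eval_em (𝔓 : HeightOneSpectrum (𝓞 L)) (p : ℤ[X]) (x : 𝓞 L) :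
    (p.map (emb 𝔓)).eval (em L 𝔓 x) = em L 𝔓 (aeval x p) := by
  have e : emb 𝔓 = (em L 𝔓).comp (algebraMap ℤ (𝓞 L)) := RingHom.ext_int _ _
  rw [eval_map, e, ← hom_eval₂]
  rfl

/-- The local condition, evaluated. -/
theorem locIm_eval {p : ℕ} [Fact p.Prime] {𝔓 : HeightOneSpectrum (𝓞 L)}
    (j : ℚ_[p] →+* 𝔓.adicCompletion L)
    (hj : ∀ x : ℚ, j (x : ℚ_[p]) = algebraMap L (𝔓.adicCompletion L) (x : L))
    {F : ℤ[X]} {Θ : L} (hΘ : aeval Θ F = 0) {h : ℚ[X]} (hl : LocIm ℚ_[p] (ov ℚ_[p] F) (oq ℚ_[p] h)) :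
    ∃ (l : List (ℚ_[p][X] × ℚ_[p][X])) (s : 𝔓.adicCompletion L),
      (∀ p ∈ l, p.1.Monic ∧ IsCoprime (p.1.map j) (F.map (emb 𝔓)) ∧
        p.1.map j ∣ (p.2.map j) ^ 2 - F.map (emb 𝔓)) ∧
      algebraMap L (𝔓.adicCompletion L) (aeval Θ h) * (l.map fun p =>
        (-1) ^ p.1.natDegree * (p.1.map j).eval (algebraMap L (𝔓.adicCompletion L) Θ)).prod =
          s ^ 2 := by
  obtain ⟨l, s, h1, h2⟩ := hl
  have hF : (ov ℚ_[p] F).map j = F.map (emb 𝔓) := by
    rw [Polynomial.map_map]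
    congr 1
    exact RingHom.ext_int _ _
  refine ⟨l, eval₂ j (algebraMap L (𝔓.adicCompletion L) Θ) s, fun p hp => ?_, ?_⟩
  · obtain ⟨h3, h4, h5⟩ := h1 p hp
    refine ⟨h3, ?_, ?_⟩
    · have := h4.map (mapRingHom j)
      rw [coe_mapRingHom, hF] at this
      exact this
    · have := _root_.map_dvd (mapRingHom j) h5
      rw [map_sub, map_pow, coe_mapRingHom, hF] at this
      exact this
  · obtain ⟨q, hq⟩ := h2
    have h3 := congrArg (eval₂ j (algebraMap L (𝔓.adicCompletion L) Θ)) hq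
    have h4 : eval₂ j (algebraMap L (𝔓.adicCompletion L) Θ) (ov ℚ_[p] F) = 0 := by
      rw [← eval_map, hF, eval_emb, hΘ, map_zero]
    rw [eval₂_sub, eval₂_mul, eval₂_pow, eval₂_mul, h4, zero_mul, sub_eq_zero] at h3
    rw [← h3]
    congr 1
    · rw [eval₂_map]
      have e : j.comp (Rat.castHom ℚ_[p]) = (algebraMap L (𝔓.adicCompletion L)).comp (algebraMap ℚ L) :=
        RingHom.ext fun x => by
          rw [RingHom.comp_apply, RingHom.comp_apply]
          exact hj x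
      rw [e, ← hom_eval₂]
      rfl
    · rw [← coe_eval₂RingHom, map_list_prod, List.map_map]
      congr 1
      apply List.map_congr_left
      intro a _
      simp only [Function.comp_apply, coe_eval₂RingHom, eval_map]
      rw [eval₂_mul, eval₂_pow, eval₂_neg, eval₂_one]

theorem j_big {p : ℕ} [Fact p.Prime] {𝔓 : HeightOneSpectrum (𝓞 L)}
    (j : ℚ_[p] →+* 𝔓.adicCompletion L)
    (hj : ∀ y : ℚ_[p], ‖y‖ < 1 → Valued.v (Γ₀ := WithZero (Multiplicative ℤ)) (j y) < 1) {y : ℚ_[p]}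
    (hy : 1 < ‖y‖) : 1 < Valued.v (Γ₀ := WithZero (Multiplicative ℤ)) (j y) := by
  have h0 : y ≠ 0 := by
    rintro rfl
    rw [norm_zero] at hy
    linarith
  have h1 : ‖y⁻¹‖ < 1 := by
    rw [norm_inv]
    exact inv_lt_one_of_one_lt₀ hy
  have h2 := hj _ h1
  rw [map_inv₀, map_inv₀] at h2
  have h3 : Valued.v (Γ₀ := WithZero (Multiplicative ℤ)) (j y) ≠ 0 := by
    rw [Ne, Valuation.zero_iff, map_eq_zero]
    exact h0
  exact (inv_lt_one₀ (zero_lt_iff.2 h3)).1 h2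

theorem resid {p : ℕ} [Fact p.Prime] (x : ℚ_[p]) (hx : ‖x‖ ≤ 1) : ∃ n : ℤ, ‖x - (n : ℚ_[p])‖ < 1 := by
  obtain ⟨y, hy⟩ : ∃ y : ℤ_[p], (y : ℚ_[p]) = x := ⟨⟨x, hx⟩, rfl⟩
  obtain ⟨n, ⟨-, hn⟩, -⟩ := PadicInt.existsUnique_mem_range y
  refine ⟨(n : ℤ), ?_⟩
  rw [IsLocalRing.mem_maximalIdeal, PadicInt.mem_nonunits] at hn
  have e : x - (((n : ℤ) : ℤ) : ℚ_[p]) = ((y - (n : ℤ_[p]) : ℤ_[p]) : ℚ_[p]) := by
    push_cast
    rw [hy]
  rw [e]
  exact hn

/-- Polynomials over the completion of `ℚ` are congruent to polynomials over `ℤ`. -/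
theorem approx {p : ℕ} [Fact p.Prime] {𝔓 : HeightOneSpectrum (𝓞 L)}
    (j : ℚ_[p] →+* 𝔓.adicCompletion L)
    (hj3 : ∀ y : ℚ_[p], ‖y‖ < 1 → Valued.v (Γ₀ := WithZero (Multiplicative ℤ)) (j y) < 1)
    (P : ℚ_[p][X])
    (hp : ∀ i, Valued.v (Γ₀ := WithZero (Multiplicative ℤ)) (j (P.coeff i)) ≤ 1) :
    ∃ p₀ : ℤ[X], ∀ z : 𝔓.adicCompletion L, Valued.v (Γ₀ := WithZero (Multiplicative ℤ)) z ≤ 1 →
      (Valued.v (Γ₀ := WithZero (Multiplicative ℤ)) ((P.map j).eval z) < 1 ↔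
        Valued.v (Γ₀ := WithZero (Multiplicative ℤ)) ((p₀.map (emb 𝔓)).eval z) < 1) := by
  have hp' : ∀ i, ‖P.coeff i‖ ≤ 1 := by
    intro i
    by_contra h
    exact absurd (j_big j hj3 (not_le.1 h)) (not_lt.2 (hp i))
  choose q hq using fun i => resid (P.coeff i) (hp' i)
  set p₀ : ℤ[X] := ∑ i ∈ Finset.range (P.natDegree + 1), monomial i (q i) with hp0
  have hc : ∀ i, Valued.v (Γ₀ := WithZero (Multiplicative ℤ))
      ((P.map j - p₀.map (emb 𝔓)).coeff i) < 1 := by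
    intro i
    rw [coeff_sub, coeff_map, coeff_map]
    by_cases hi : i < P.natDegree + 1
    · have e : p₀.coeff i = q i := by
        rw [hp0, finset_sum_coeff]
        simp only [coeff_monomial]
        rw [Finset.sum_ite_eq' (Finset.range (P.natDegree + 1)) i q, if_pos (Finset.mem_range.2 hi)]
      rw [e]
      have e2 : j (P.coeff i) - emb 𝔓 (q i) = j (P.coeff i - (q i : ℚ_[p])) := by
        rw [map_sub, map_intCast]
        rfl
      rw [e2]
      exact hj3 _ (hq i)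
    · have e : p₀.coeff i = 0 := by
        rw [hp0, finset_sum_coeff]
        refine Finset.sum_eq_zero fun n hn => ?_
        rw [coeff_monomial, if_neg]
        intro h
        rw [Finset.mem_range] at hn
        omega
      rw [e, coeff_eq_zero_of_natDegree_lt (by omega : P.natDegree < i), map_zero, map_zero,
        sub_zero, map_zero]
      exact zero_lt_one
  refine ⟨p₀, fun z hz => ?_⟩
  have h1 := eval_lt (Valued.v (R := 𝔓.adicCompletion L)) _ hc hz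
  rw [eval_sub] at h1
  constructor
  · intro h
    have e1 : (p₀.map (emb 𝔓)).eval z = (P.map j).eval z -
      ((P.map j).eval z - (p₀.map (emb 𝔓)).eval z) := by ring
    rw [e1]
    exact lt_of_le_of_lt (Valuation.map_sub _ _ _) (max_lt h h1)
  · intro h
    have e1 : (P.map j).eval z = (p₀.map (emb 𝔓)).eval z +
      ((P.map j).eval z - (p₀.map (emb 𝔓)).eval z) := by ring
    rw [e1]
    exact lt_of_le_of_lt (Valuation.map_add _ _ _) (max_lt h h1)

end ov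

end Pool.Agent.N855.PQ
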