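import Pool.Agent.N855.PQ.Bas

/-!
# The splitting of `f` over the completion at the big prime over `q`

Project PQ (helper783), part LOC2 (helper855); port of N704/PJ/Split.lean (helper704).
-/

set_option autoImplicit false
set_option linter.all false

open Polynomial IsDedekindDomain WithZero Matrix NumberField
open Pool.Agent.N874.PP (Ev Sq1 U0)
open Pool.Agent.N783.PQ
open scoped Classical NNReal

namespace Pool.Agent.N855.PQ

open Pool.Agent.N704.PP (vx)
open Pool.Agent.N704.PJ (em em_lt em_le em_eq eval_lt lip hensel roots_ff cop_X)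

variable {L : Type} [Field L] [NumberField L]

theorem theta_int {g : ℕ} {f : ℤ[X]} {θ : L} (hG : IsGen g f θ) : IsIntegral ℤ θ :=
  ⟨f, hG.mon, hG.root⟩

/-- The splitting of `f` over the completion. -/
theorem split {g W : ℕ} {f : ℤ[X]} {θ : L} {S : Finset ℕ}
    {r : ℕ → ℤ[X]} (hg : 1 ≤ g) (hG : IsGen g f θ) (hS : GoodS g W S r) {q : ℕ}
    (hQ : q ∈ S) (hC : Cg q f (X * r q)) {𝔮 : HeightOneSpectrum (𝓞 L)} (hO : Ov q 𝔮)
    (hθ : 𝔮.valuation L θ = 1) (hfin : Finite (𝓞 L ⧸ 𝔮.asIdeal)) :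
    ∃ z : Fin (2 * g + 1) → 𝔮.adicCompletion L,
      (∀ i, (f.map (emb 𝔮)).eval (z i) = 0) ∧
      (∀ i, Valued.v (Γ₀ := WithZero (Multiplicative ℤ)) (z i) ≤ 1) ∧
      Valued.v (Γ₀ := WithZero (Multiplicative ℤ)) (z 0) < 1 ∧
      (∀ i j, i ≠ j → Valued.v (Γ₀ := WithZero (Multiplicative ℤ)) (z i - z j) = 1) ∧
      ∀ i, i ≠ 0 → ∀ p : ℤ[X],
        (Valued.v (Γ₀ := WithZero (Multiplicative ℤ)) ((p.map (emb 𝔮)).eval (z i)) < 1 ↔
          rd q (r q) ∣ rd q p) := by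
  obtain ⟨hqp, -, -, -, hhm, hhd, -, hhi⟩ := hS q hQ
  haveI : Fact q.Prime := ⟨hqp⟩
  haveI hmx : 𝔮.asIdeal.IsMaximal := 𝔮.isMaximal
  letI f2 : Field (𝓞 L ⧸ 𝔮.asIdeal) := Ideal.Quotient.field _
  haveI hchar : CharP (𝓞 L ⧸ 𝔮.asIdeal) q := by
    rw [CharP.charP_iff_prime_eq_zero hqp]
    have : Ideal.Quotient.mk 𝔮.asIdeal (q : 𝓞 L) = 0 := Ideal.Quotient.eq_zero_iff_mem.2 hO
    rwa [map_natCast] at this
  letI alg : Algebra (ZMod q) (𝓞 L ⧸ 𝔮.asIdeal) := ZMod.algebra _ q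
  set mQ := Int.castRingHom (ZMod q) with hmQ
  set φ := Ideal.Quotient.mk 𝔮.asIdeal with hφ
  have hcomp : (algebraMap (ZMod q) (𝓞 L ⧸ 𝔮.asIdeal)).comp mQ = φ.comp (algebraMap ℤ (𝓞 L)) :=
    RingHom.ext_int _ _
  set H := rd q (r q) with hH
  have hHm : H.Monic := hhm.map _
  have hHd : H.natDegree = 2 * g := by rw [hH, hhm.natDegree_map, hhd]
  have hfH : f.map mQ = X * H := by
    have h1 : (X * H : (ZMod q)[X]) = (X * r q).map mQ := by
      rw [Polynomial.map_mul, map_X]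
    rw [h1]
    ext i
    rw [coeff_map, coeff_map, hmQ, eq_intCast, eq_intCast]
    exact ((ZMod.intCast_eq_intCast_iff_dvd_sub _ _ q).2 (hC i)).symm
  have hev : ∀ (p : ℤ[X]) (x : 𝓞 L), aeval (φ x) (p.map mQ) = φ (aeval x p) := by
    intro p x
    rw [aeval_def, eval₂_map, hcomp, ← hom_eval₂]
    rfl
  set θ' : 𝓞 L := ⟨θ, theta_int hG⟩ with hθ'
  have hθe : algebraMap (𝓞 L) L θ' = θ := rfl
  have hroot : aeval θ' f = 0 := by
    apply IsFractionRing.injective (𝓞 L) L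
    rw [← aeval_algebraMap_apply, hθe, hG.root, map_zero]
  have hθ0 : φ θ' ≠ 0 := by
    rw [Ne, Ideal.Quotient.eq_zero_iff_mem, ← HeightOneSpectrum.valuation_lt_one_iff_mem (K := L)]
    have e1 : 𝔮.valuation L ((θ' : 𝓞 L) : L) = 1 := hθ
    rw [e1]
    exact lt_irrefl _
  have ht : aeval (φ θ') H = 0 := by
    have h1 := hev f θ'
    rw [hroot, map_zero, hfH, map_mul, aeval_X] at h1
    exact (mul_eq_zero.1 h1).resolve_left hθ0
  obtain ⟨e, he1, he2, he3⟩ := roots_ff hHm hhi hHd (by omega) ht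
  have hminp : ∀ i, i ≠ 0 → minpoly (ZMod q) (e i) = H := fun i hi =>
    (minpoly.eq_of_irreducible_of_monic hhi (he3 i hi) hHm).symm
  choose a ha using fun i => Ideal.Quotient.mk_surjective (I := 𝔮.asIdeal) (e i)
  have hXH : ∀ i, aeval (e i) (X * H) = 0 := by
    intro i
    rw [map_mul, aeval_X]
    by_cases hi : i = 0
    · rw [hi, he2, zero_mul]
    · rw [he3 i hi, mul_zero]
  have hsep : (X * H : (ZMod q)[X]).Separable := by
    refine Separable.mul separable_X (PerfectField.separable_of_irreducible hhi)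
      (cop_X hhi (by omega))
  have hc : ∀ i, Valued.v (Γ₀ := WithZero (Multiplicative ℤ)) ((f.map (emb 𝔮)).coeff i) ≤ 1 := by
    intro i
    rw [coeff_map, vemb]
    exact valO_le_one 𝔮 _
  have hz : ∀ i, ∃ z : 𝔮.adicCompletion L, (f.map (emb 𝔮)).eval z = 0 ∧
      Valued.v (Γ₀ := WithZero (Multiplicative ℤ)) (z - em L 𝔮 (a i)) < 1 := by
    intro i
    refine hensel _ hc (em_le 𝔮 _) ?_ ?_
    · rw [eval_em, em_lt, ← Ideal.Quotient.eq_zero_iff_mem, ← hφ, ← hev, ha, hfH, hXH]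
    · rw [derivative_map, eval_em, em_eq, ← Ideal.Quotient.eq_zero_iff_mem, ← hφ, ← hev, ha,
        ← derivative_map, hfH]
      exact hsep.aeval_derivative_ne_zero (hXH i)
  choose z hz1 hz2 using hz
  have hzle : ∀ i, Valued.v (Γ₀ := WithZero (Multiplicative ℤ)) (z i) ≤ 1 := by
    intro i
    have e1 : z i = (z i - em L 𝔮 (a i)) + em L 𝔮 (a i) := by ring
    rw [e1]
    exact (Valuation.map_add _ _ _).trans (max_le (hz2 i).le (em_le 𝔮 _))
  refine ⟨z, hz1, hzle, ?_, ?_, ?_⟩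
  · have e1 : z 0 = (z 0 - em L 𝔮 (a 0)) + em L 𝔮 (a 0) := by ring
    rw [e1]
    refine lt_of_le_of_lt (Valuation.map_add _ _ _) (max_lt (hz2 0) ?_)
    rw [em_lt, ← Ideal.Quotient.eq_zero_iff_mem, ha, he2]
  · intro i j hij
    have e1 : z i - z j = em L 𝔮 (a i - a j) +
        ((z i - em L 𝔮 (a i)) - (z j - em L 𝔮 (a j))) := by
      rw [map_sub]; ring
    have h1 : Valued.v (Γ₀ := WithZero (Multiplicative ℤ)) (em L 𝔮 (a i - a j)) = 1 := by
      rw [em_eq, ← Ideal.Quotient.eq_zero_iff_mem, map_sub, ha, ha, sub_eq_zero]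
      exact fun h => hij (he1 h)
    rw [e1, Valuation.map_add_eq_of_lt_left _ (by
      rw [h1]
      exact lt_of_le_of_lt (Valuation.map_sub _ _ _) (max_lt (hz2 i) (hz2 j))), h1]
  · intro i hi p
    have hpc : ∀ n, Valued.v (Γ₀ := WithZero (Multiplicative ℤ)) ((p.map (emb 𝔮)).coeff n) ≤ 1 := by
      intro i
      rw [coeff_map, vemb]
      exact valO_le_one 𝔮 _
    have h1 := lip (Valued.v (R := 𝔮.adicCompletion L)) _ hpc (hzle i) (em_le 𝔮 (a i))
    have h2 := lt_of_le_of_lt h1 (hz2 i)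
    have h3 : Valued.v (Γ₀ := WithZero (Multiplicative ℤ)) ((p.map (emb 𝔮)).eval (z i)) < 1 ↔
        Valued.v (Γ₀ := WithZero (Multiplicative ℤ))
          ((p.map (emb 𝔮)).eval (em L 𝔮 (a i))) < 1 := by
      constructor
      · intro h
        have e1 : (p.map (emb 𝔮)).eval (em L 𝔮 (a i)) = (p.map (emb 𝔮)).eval (z i) -
          ((p.map (emb 𝔮)).eval (z i) - (p.map (emb 𝔮)).eval (em L 𝔮 (a i))) := by ring
        rw [e1]
        exact lt_of_le_of_lt (Valuation.map_sub _ _ _) (max_lt h h2)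
      · intro h
        have e1 : (p.map (emb 𝔮)).eval (z i) = (p.map (emb 𝔮)).eval (em L 𝔮 (a i)) +
          ((p.map (emb 𝔮)).eval (z i) - (p.map (emb 𝔮)).eval (em L 𝔮 (a i))) := by ring
        rw [e1]
        exact lt_of_le_of_lt (Valuation.map_add _ _ _) (max_lt h h2)
    rw [h3, eval_em, em_lt, ← Ideal.Quotient.eq_zero_iff_mem, ← hφ, ← hev, ha, ← hminp i hi]
    exact minpoly.dvd_iff.symm

end Pool.Agent.N855.PQ
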